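import Pool.Agent.H95.GY.Targets

/-!
# MP_c39b0e_gt, module SEC: equivariant local sections
-/

set_option autoImplicit false

open Filter Topology MeasureTheory Set
open scoped Pointwise

universe u v

namespace Pool.Agent.H56.GY

open Pool.Agent.H95.GY

theorem sec_bound {n : ℕ} {K : Type u} [TopologicalSpace K] [CompactSpace K]
    (ρ : K → (Fin n → ℝ) →ₗ[ℝ] (Fin n → ℝ)) (hc : ∀ v, Continuous fun k => ρ k v) :
    ∃ M : ℝ, 0 < M ∧ ∀ k v, ‖ρ k v‖ ≤ M * ‖v‖ := by
  have h1 : ∀ i : Fin n, ∃ M : ℝ, ∀ k, ‖ρ k (Pi.single i 1)‖ ≤ M := by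
    intro i
    obtain ⟨M, hM⟩ := (isCompact_range ((hc (Pi.single i 1)).norm)).bddAbove
    exact ⟨M, fun k => hM (mem_range_self k)⟩
  choose M hM using h1
  refine ⟨(∑ i, |M i|) + 1, by positivity, fun k v => ?_⟩
  have h2 : v = ∑ i, v i • (Pi.single i (1 : ℝ) : Fin n → ℝ) := by
    ext j
    simp [Finset.sum_apply, Pi.single_apply]
  have h3 : ρ k v = ∑ i, v i • ρ k (Pi.single i 1) := by
    conv_lhs => rw [h2]
    rw [map_sum]
    exact Finset.sum_congr rfl fun i _ => by rw [map_smul]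
  rw [h3]
  calc ‖∑ i, v i • ρ k (Pi.single i 1)‖ ≤ ∑ i, ‖v i • ρ k (Pi.single i 1)‖ := norm_sum_le _ _
    _ ≤ ∑ i, ‖v‖ * |M i| := by
        refine Finset.sum_le_sum fun i _ => ?_
        rw [norm_smul]
        exact mul_le_mul (norm_le_pi_norm v i) ((hM i k).trans (le_abs_self _))
          (norm_nonneg _) (norm_nonneg _)
    _ = (∑ i, |M i|) * ‖v‖ := by rw [← Finset.mul_sum, mul_comm]
    _ ≤ ((∑ i, |M i|) + 1) * ‖v‖ := by
        refine mul_le_mul_of_nonneg_right ?_ (norm_nonneg _)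
        linarith

theorem sec_inv {X : Type v} {Y : Type u} [TopologicalSpace X] [Nonempty X] [TopologicalSpace Y]
    [T2Space Y] (f : X → Y) (B : Set X) (hB : IsCompact B) (hc : Continuous f)
    (hi : InjOn f B) : ContinuousOn (Function.invFunOn f B) (f '' B) := by
  rw [continuousOn_iff_isClosed]
  intro C hC
  refine ⟨f '' (B ∩ C), ((hB.inter_right hC).image hc).isClosed, ?_⟩
  ext y
  constructor
  · rintro ⟨h1, v, hv, rfl⟩
    refine ⟨⟨v, ⟨hv, ?_⟩, rfl⟩, v, hv, rfl⟩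
    have h2 : Function.invFunOn f B (f v) = v := hi.leftInvOn_invFunOn hv
    rw [mem_preimage, h2] at h1
    exact h1
  · rintro ⟨⟨v, ⟨hv, hvC⟩, rfl⟩, h1⟩
    refine ⟨?_, h1⟩
    have h2 : Function.invFunOn f B (f v) = v := hi.leftInvOn_invFunOn hv
    rw [mem_preimage, h2]
    exact hvC

/-- (SEC) equivariant local sections -/
theorem pf_SEC (hLFT : T_LFT.{u}) : T_SEC.{u} := by
  intro G _ _ _ _ _ hG K hK N hNn hN
  obtain ⟨n, e, ρ, j, hch, hρm, hρ1, hρc, hj, hmk, hconj, hjc⟩ := hLFT G hG K hK N hN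
  have : CompactSpace K := isCompact_iff_compactSpace.1 hK
  have hNc : IsClosed (N : Set G) := hN.compact.isClosed
  have : T2Space (G ⧸ N) := inferInstance
  obtain ⟨δ, hδ, hinj⟩ := hch.loc
  obtain ⟨M, hM0, hM⟩ := sec_bound ρ hρc
  let E : (Fin n → ℝ) → G ⧸ N := fun v => e v 1
  let B : Set (Fin n → ℝ) := {v | ∀ k : K, ρ k v ∈ Metric.closedBall (0 : Fin n → ℝ) δ}
  have hBsub : B ⊆ Metric.closedBall 0 δ := by
    intro v hv
    have h1 := hv 1
    rwa [hρ1] at h1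
  have hBclosed : IsClosed B := by
    have h1 : B = ⋂ k : K, (fun v => ρ k v) ⁻¹' Metric.closedBall (0 : Fin n → ℝ) δ := by
      ext v
      simp [B]
    rw [h1]
    exact isClosed_iInter fun k =>
      Metric.isClosed_closedBall.preimage (LinearMap.continuous_of_finiteDimensional (ρ k))
  have hBc : IsCompact B := (isCompact_closedBall (0 : Fin n → ℝ) δ).of_isClosed_subset hBclosed hBsub
  have hBinv : ∀ (k : K), ∀ v ∈ B, ρ k v ∈ B := by
    intro k v hv l
    rw [← hρm]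
    exact hv (l * k)
  have hE0 : E 0 = 1 := by
    have h1 := hch.smul 0 0 1
    rw [zero_smul, zero_mul, (hch.ops 0).zero] at h1
    exact h1
  have h0B : (0 : Fin n → ℝ) ∈ B := by
    intro k
    rw [map_zero]
    exact Metric.mem_closedBall_self hδ.le
  have hinjB : InjOn E B := hinj.mono hBsub
  have hnhd : E '' B ∈ 𝓝 (1 : G ⧸ N) := by
    refine mem_of_superset (hch.nhd (δ / M) (div_pos hδ hM0)) (image_mono ?_)
    intro v hv k
    rw [mem_closedBall_zero_iff] at hv ⊢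
    calc ‖ρ k v‖ ≤ M * ‖v‖ := hM k v
      _ ≤ M * (δ / M) := mul_le_mul_of_nonneg_left hv hM0.le
      _ = δ := mul_div_cancel₀ _ hM0.ne'
  have hcE : ∀ (k : K) v, (QuotientGroup.mk (k : G) : G ⧸ N) * E v * (QuotientGroup.mk (k : G))⁻¹ =
      E (ρ k v) := by
    intro k v
    show (QuotientGroup.mk (k : G) : G ⧸ N) * e v 1 * (QuotientGroup.mk (k : G))⁻¹ = e (ρ k v) 1
    rw [← hmk, ← hmk, hconj]
    rfl
  have hleft : ∀ v ∈ B, Function.invFunOn E B (E v) = v := fun v hv =>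
    hinjB.leftInvOn_invFunOn hv
  have hfix : ∀ k : K, (k : G) * j 0 1 * (k : G)⁻¹ = j 0 1 := by
    intro k
    rw [← hconj, map_zero]
  refine ⟨interior (E '' B), fun x => j (Function.invFunOn E B x) 1 * (j 0 1)⁻¹, isOpen_interior,
    mem_interior_iff_mem_nhds.2 hnhd, ?_, ?_, ?_, ?_⟩
  · refine ContinuousOn.mul ?_ continuousOn_const
    exact hjc.comp_continuousOn
      ((sec_inv E B hBc hch.cont hinjB).mono interior_subset)
  · intro x hx
    obtain ⟨v, hv, rfl⟩ := interior_subset hx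
    dsimp only
    rw [hleft v hv]
    show (QuotientGroup.mk (j v 1) : G ⧸ N) * (QuotientGroup.mk (j 0 1) : G ⧸ N)⁻¹ = E v
    rw [hmk, hmk]
    show E v * (E 0)⁻¹ = E v
    rw [hE0, inv_one, mul_one]
  · dsimp only
    rw [← hE0, hleft 0 h0B, mul_inv_cancel]
  · intro k hk x hx
    have h1 : (QuotientGroup.mk k : G ⧸ N) * x * (QuotientGroup.mk k)⁻¹ ∈ interior (E '' B) := by
      have h2 : (fun y : G ⧸ N => (QuotientGroup.mk k : G ⧸ N) * y * (QuotientGroup.mk k)⁻¹) ''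
          interior (E '' B) ⊆ interior (E '' B) := by
        refine interior_maximal ?_ ?_
        · rintro _ ⟨y, hy, rfl⟩
          obtain ⟨v, hv, rfl⟩ := interior_subset hy
          exact ⟨ρ ⟨k, hk⟩ v, hBinv _ v hv, (hcE ⟨k, hk⟩ v).symm⟩
        · have h3 : IsOpenMap fun y : G ⧸ N =>
              (QuotientGroup.mk k : G ⧸ N) * y * (QuotientGroup.mk k)⁻¹ :=
            (Homeomorph.mulRight ((QuotientGroup.mk k : G ⧸ N)⁻¹)).isOpenMap.comp
              (Homeomorph.mulLeft (QuotientGroup.mk k : G ⧸ N)).isOpenMap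
          exact h3 _ isOpen_interior
      exact h2 ⟨x, hx, rfl⟩
    refine ⟨h1, ?_⟩
    obtain ⟨v, hv, rfl⟩ := interior_subset hx
    have h4 := hcE ⟨k, hk⟩ v
    dsimp only at h4 ⊢
    rw [h4, hleft v hv, hleft _ (hBinv ⟨k, hk⟩ v hv), hconj]
    have h5 := hfix ⟨k, hk⟩
    dsimp only at h5 ⊢
    have h6 : (j 0 1)⁻¹ * k⁻¹ = k⁻¹ * (j 0 1)⁻¹ := by
      have h7 : k * j 0 1 = j 0 1 * k := by
        rw [mul_inv_eq_iff_eq_mul] at h5
        exact h5
      rw [← mul_inv_rev, ← mul_inv_rev, h7]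
    simp only [mul_assoc]
    rw [h6]

end Pool.Agent.H56.GY
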